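import Mathlib

import Pool.Agent.Helper40.CX.H17FF.Approx
import Pool.Agent.Helper40.CX.H83VF.Kill
import Pool.Agent.Helper40.CX.Good

namespace CX

/-!
# Functions vanishing at almost all points of a curve
-/

set_option linter.unusedSectionVars false

namespace Pool.Agent.Helper83.KV

open VC VF Function WithZero

universe u

variable {k : Type u} [Field k] [IsAlgClosed k] [Good k]

/-- A function with a zero at the place `P` and neither zero nor pole at finitely many others. -/
lemma exists_zero_at {F : Type u} [Field F] [Algebra k F] (hF : IsFunctionField k F)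
    (S : Finset (Place k F)) (P : Place k F) (hP : P ∉ S) :
    ∃ f : F, f ≠ 0 ∧ ord P.ring f ≠ 0 ∧ ∀ Q ∈ S, ord Q.ring f = 0 := by
  classical
  rcases S.eq_empty_or_nonempty with hS | ⟨Q₀, hQ₀⟩
  · obtain ⟨π, h1, h2⟩ := FF.exists_uniformizer hF P
    refine ⟨π, h1, by rw [h2]; exact one_ne_zero, fun Q hQ => ?_⟩
    rw [hS] at hQ
    exact absurd hQ (Finset.notMem_empty Q)
  · obtain ⟨w, h1, h2⟩ := FF.exists_idem hF S P hP 0
    rw [exp_zero] at h1
    have h2' : ∀ Q ∈ S, FF.val hF Q w < 1 := by
      intro Q hQ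
      have := h2 Q hQ
      rwa [exp_zero] at this
    have hw : w - 1 ≠ 0 := by
      intro h0
      have := h2' Q₀ hQ₀
      rw [sub_eq_zero.mp h0, map_one] at this
      exact absurd this (lt_irrefl _)
    refine ⟨w - 1, hw, ?_, fun Q hQ => ?_⟩
    · intro h0
      rw [FF.val_eq_exp hF P hw, h0, neg_zero, exp_zero] at h1
      exact absurd h1 (lt_irrefl _)
    · have h3 : FF.val hF Q (w - 1) = 1 := by
        have h4 : FF.val hF Q (w - 1) = FF.val hF Q (1 - w) := by
          rw [← Valuation.map_neg, neg_sub]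
        rw [h4]
        exact Valuation.map_one_sub_of_lt _ (h2' Q hQ)
      rw [FF.val_eq_exp hF Q hw, ← exp_zero] at h3
      have h5 := exp_injective h3
      omega

/-- If a function on the points of `X` which vanishes on cycles rationally equivalent to zero
vanishes at almost all points of a curve, then it vanishes at all its points. -/
theorem app {X : Variety k} {ψ : X.Pt → ℂ} (h : Kills X ψ) {K : Type u} [Field K] [Algebra k K]
    (hK : IsFunctionField k K) (c : X.Mor K) {T : Set (Place k K)} (hT : T.Finite)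
    (h0 : ∀ v, v ∉ T → ψ (X.eval hK c v) = 0) (v : Place k K) : ψ (X.eval hK c v) = 0 := by
  classical
  by_cases hv : v ∈ T
  swap
  · exact h0 v hv
  obtain ⟨f, hf0, hf1, hf2⟩ := exists_zero_at hK (hT.toFinset.erase v) v
    (Finset.notMem_erase v _)
  have h1 := h.gen hK c hf0
  have h2 : ∀ w ∈ (finite_support_ord hK hf0).toFinset, w ≠ v →
      (ord w.ring f : ℂ) * ψ (X.eval hK c w) = 0 := by
    intro w _ hw
    by_cases hwT : w ∈ T
    · rw [hf2 w (Finset.mem_erase.mpr ⟨hw, hT.mem_toFinset.mpr hwT⟩), Int.cast_zero, zero_mul]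
    · rw [h0 w hwT, mul_zero]
  rw [Finset.sum_eq_single v h2 (fun hn => by
    exfalso
    apply hn
    rw [Set.Finite.mem_toFinset, Set.mem_ofPred_eq]
    exact hf1)] at h1
  exact (mul_eq_zero.mp h1).resolve_left (Int.cast_ne_zero.mpr hf1)

end Pool.Agent.Helper83.KV

end CX
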