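import Mathlib

import Pool.Agent.Helper40.CX.H83VF.Fields
import Pool.Agent.Helper40.CX.Good

namespace CX

/-!
# Function fields in an algebraic closure of the rational function field
-/

set_option linter.unusedSectionVars false

namespace Pool.Agent.Helper83.KV

open VC VF Function

universe u

variable {k : Type u} [Field k]

/-- An algebraic closure of `k(z)`. -/
abbrev Om (k : Type u) [Field k] : Type u := AlgebraicClosure (RatFunc k)

/-- The variable. -/
noncomputable def zO (k : Type u) [Field k] : Om k := algebraMap (RatFunc k) (Om k) RatFunc.X

lemma zO_tr : Transcendental k (zO k) :=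
  (transcendental_algebraMap_iff (algebraMap (RatFunc k) (Om k)).injective).mpr
    transcendental_ratX

/-- Finitely many elements of an algebraic closure of `k(z)` lie in a function field. -/
theorem exists_ff {n : ℕ} (a : Fin n → Om k) :
    ∃ (K : Type u) (_ : Field K) (_ : Algebra k K) (ι : K →ₐ[k] Om k) (t : K) (b : Fin n → K),
      IsFunctionField k K ∧ Transcendental k t ∧ ι t = zO k ∧ ∀ i, ι (b i) = a i := by
  classical
  let K : IntermediateField (RatFunc k) (Om k) := IntermediateField.adjoin (RatFunc k) (Set.range a)
  have hfin : FiniteDimensional (RatFunc k) K := by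
    apply IntermediateField.finiteDimensional_adjoin
    intro x _
    exact (Algebra.IsAlgebraic.isAlgebraic x).isIntegral
  have hK : IsFunctionField k K := ff_ext (F := RatFunc k) ff_ratFunc
  refine ⟨K, inferInstance, inferInstance, (K.val.restrictScalars k), algebraMap (RatFunc k) K
    RatFunc.X, fun i => ⟨a i, IntermediateField.subset_adjoin _ _ ⟨i, rfl⟩⟩, hK, ?_, rfl,
    fun i => rfl⟩
  exact (transcendental_algebraMap_iff (algebraMap (RatFunc k) K).injective).mpr
    transcendental_ratX

end Pool.Agent.Helper83.KV

end CX
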