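import Mathlib

import Pool.Agent.Helper40.CX.H83KV.App
import Pool.Agent.Helper40.CX.H83KV.Main
import Pool.Agent.Helper40.CX.Good

namespace CX

/-!
# From good pairs to all pairs of points
-/

set_option linter.unusedSectionVars false

namespace Pool.Agent.Helper83.KV

open VC VF Function
open Pool.Agent.Helper51.EW Pool.Agent.Helper51.VK

universe u

variable {k : Type u} [Field k] [IsAlgClosed k] [Good k] {W : Wei k} (D : Core W)
  {ψ : (W.surface.prod W.surface).Pt → ℂ}

/-- The value of the function at a pair of points. -/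
lemma pt_val (h : Alt W ψ) {t s r x₁ x₂ y : k} (hr : r ≠ 0) (hy : y ^ 2 = cub D t x₁)
    (hc : cub D t x₁ = r ^ 6 * cub D s (x₂ / r ^ 2))
    (hn : nn D t s (r ^ 6) (xi D t s r x₁ x₂) ≠ 0) :
    ψ (ptt D t x₁ y, ptt D s (x₂ / r ^ 2) (y / r ^ 3)) =
      hh D ψ t s (r ^ 6) (xi D t s r x₁ x₂) (ww D t s r x₁ x₂) := by
  obtain ⟨e1, e2⟩ := xa_of D hr hc (den_ne D hn)
  rw [hh_eq D h hr (jac_of D hr hc) hn]
  unfold HH
  rw [e1, e2]
  exact (Phi_sign D h hr (sqt_sq _) hc hy)

/-- The condition that the curve is smooth. -/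
def Smooth (t s U : k) : Prop :=
  (2 * (Polynomial.aeval t D.be * Polynomial.aeval s D.be) - del D t / U -
      del D s * U) ^ 2 ≠ 4 * (Polynomial.aeval t D.al * Polynomial.aeval s D.al) ^ 3

/-- Good pairs. -/
lemma good_zero (h : Alt W ψ) {t s r x₁ x₂ y : k} (ht : del D t ≠ 0) (hs : del D s ≠ 0)
    (hr : r ≠ 0) (hy : y ^ 2 = cub D t x₁) (hc : cub D t x₁ = r ^ 6 * cub D s (x₂ / r ^ 2))
    (hn : nn D t s (r ^ 6) (xi D t s r x₁ x₂) ≠ 0)
    (hn' : nn D t s (del D t / (del D s * r ^ 6)) (xi D t s r x₁ x₂) ≠ 0)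
    (hsm : Smooth D t s (r ^ 6)) :
    ψ (ptt D t x₁ y, ptt D s (x₂ / r ^ 2) (y / r ^ 3)) = 0 := by
  rw [pt_val D h hr hy hc hn]
  have hU : r ^ 6 ≠ 0 := pow_ne_zero 6 hr
  have hJ := jac_of D hr hc
  by_cases hw : ww D t s r x₁ x₂ = 0
  · have h1 := hh_neg D h hU hJ hn
    rw [hw, neg_zero] at h1
    rw [hw]
    exact self_eq_neg.mp h1
  · exact main D h ht hs hU hJ hn hn' hw hsm

lemma exists_res_of_ord {K : Type u} [Field K] [Algebra k K] (hK : IsFunctionField k K)
    {v : Place k K} {f : K} (hf : f ≠ 0) (h0 : ord v.ring f = 0) : ∃ c : k, c ≠ 0 ∧ IsRes v f c := by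
  have h1 : f ∈ v.ring := by
    rw [← FF.ord_nonneg_iff hK v hf]
    omega
  have h2 : f⁻¹ ∈ v.ring := by
    rw [← FF.ord_nonneg_iff hK v (inv_ne_zero hf), FF.ord_inv hK v hf]
    omega
  exact exists_res_ne hK h1 hf h2

section res

variable {K : Type u} [Field K] [Algebra k K] {v : Place k K}

lemma isRes_four : IsRes v (4 : K) (4 : k) := by
  have := isRes_const (v := v) (4 : k)
  rwa [map_ofNat] at this

lemma isRes_nn {T S U ξ : K} {t s a b : k} (hT : IsRes v T t) (hS : IsRes v S s)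
    (hU : IsRes v U a) (hξ : IsRes v ξ b) : IsRes v (nn D T S U ξ) (nn D t s a b) := by
  unfold nn
  exact ((hU.mul ((hξ.pow 3).sub ((isRes_three.mul ((isRes_aeval' hT _).mul
      (isRes_aeval' hS _))).mul hξ))).add ((isRes_aeval' hT _).pow 3)).add
      ((hU.pow 2).mul ((isRes_aeval' hS _).pow 3))

lemma isRes_xi (hK : IsFunctionField k K) {T S R X Y : K} {t s r x y : k} (hT : IsRes v T t)
    (hS : IsRes v S s) (hR : IsRes v R r) (hr : r ≠ 0) (hX : IsRes v X x) (hY : IsRes v Y y) :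
    IsRes v (xi D T S R X Y) (xi D t s r x y) := by
  unfold xi
  exact res_div hK ((((hX.pow 2).add (hX.mul hY)).add (hY.pow 2)).sub (isRes_aeval' hT _) |>.sub
    ((hR.pow 4).mul (isRes_aeval' hS _))) (hR.pow 2) (pow_ne_zero 2 hr)

/-- The expression whose vanishing means that the curve is singular. -/
noncomputable def smt (T S U : K) : K :=
  (2 * (Polynomial.aeval T D.be * Polynomial.aeval S D.be) - del D T / U -
      del D S * U) ^ 2 - 4 * (Polynomial.aeval T D.al * Polynomial.aeval S D.al) ^ 3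

lemma isRes_smt (hK : IsFunctionField k K) {T S U : K} {t s a : k} (hT : IsRes v T t)
    (hS : IsRes v S s) (hU : IsRes v U a) (ha : a ≠ 0) :
    IsRes v (smt D T S U) (smt D t s a) := by
  unfold smt
  exact ((((isRes_two.mul ((isRes_aeval' hT _).mul (isRes_aeval' hS _))).sub
    (res_div hK (isRes_del D hT) hU ha)).sub ((isRes_del D hS).mul hU)).pow 2).sub
    (isRes_four.mul (((isRes_aeval' hT _).mul (isRes_aeval' hS _)).pow 3))

end res

/-- The field of the moving curve. -/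
lemma move_field {t s x y x' y' c : k} (hy0 : y ≠ 0) (hy'0 : y' ≠ 0)
    (hy : y ^ 2 = cub D t x) (hy' : y' ^ 2 = cub D s x') :
    ∃ (K : Type u) (_ : Field K) (_ : Algebra k K) (τ Y Y' r : K),
      IsFunctionField k K ∧ Transcendental k τ ∧ Y ^ 2 = cub D (algebraMap k K t) τ ∧
      Y' ^ 2 = cub D (algebraMap k K s) (algebraMap k K (x' - c * x) + algebraMap k K c * τ) ∧
      r ^ 3 * Y' = Y ∧ r ≠ 0 ∧ Y ≠ 0 ∧ Y' ≠ 0 := by
  obtain ⟨z, hz⟩ : ∃ z, z = zO k := ⟨_, rfl⟩
  have hztr : Transcendental k z := by rw [hz]; exact zO_tr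
  obtain ⟨Y, hY⟩ := IsAlgClosed.exists_pow_nat_eq (cub D (algebraMap k (Om k) t) z)
    (n := 2) two_pos
  obtain ⟨Y', hY'⟩ := IsAlgClosed.exists_pow_nat_eq (cub D (algebraMap k (Om k) s)
    (algebraMap k (Om k) (x' - c * x) + algebraMap k (Om k) c * z)) (n := 2) two_pos
  have hY0 : Y ≠ 0 := by
    rintro rfl
    apply aeval_ne_zero hztr (p := Polynomial.X ^ 3 - 3 * Polynomial.C (Polynomial.aeval t D.al) *
      Polynomial.X + 2 * Polynomial.C (Polynomial.aeval t D.be))
    · intro h0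
      have h1 := congrArg (Polynomial.eval x) h0
      simp only [Polynomial.eval_add, Polynomial.eval_sub, Polynomial.eval_mul,
        Polynomial.eval_pow, Polynomial.eval_X, Polynomial.eval_C, Polynomial.eval_ofNat,
        Polynomial.eval_zero] at h1
      apply pow_ne_zero 2 hy0
      rw [hy]
      unfold cub
      exact h1
    · rw [zero_pow two_ne_zero] at hY
      unfold cub at hY
      simp only [Polynomial.aeval_algebraMap_apply] at hY
      simp only [map_add, map_sub, map_mul, map_pow, map_ofNat, Polynomial.aeval_C,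
        Polynomial.aeval_X]
      exact hY.symm
  have hY'0 : Y' ≠ 0 := by
    rintro rfl
    apply aeval_ne_zero hztr (p := (Polynomial.C (x' - c * x) + Polynomial.C c * Polynomial.X) ^ 3 -
      3 * Polynomial.C (Polynomial.aeval s D.al) *
      (Polynomial.C (x' - c * x) + Polynomial.C c * Polynomial.X) +
      2 * Polynomial.C (Polynomial.aeval s D.be))
    · intro h0
      have h1 := congrArg (Polynomial.eval x) h0
      simp only [Polynomial.eval_add, Polynomial.eval_sub, Polynomial.eval_mul,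
        Polynomial.eval_pow, Polynomial.eval_X, Polynomial.eval_C, Polynomial.eval_ofNat,
        Polynomial.eval_zero] at h1
      rw [sub_add_cancel] at h1
      apply pow_ne_zero 2 hy'0
      rw [hy']
      unfold cub
      exact h1
    · rw [zero_pow two_ne_zero] at hY'
      unfold cub at hY'
      simp only [Polynomial.aeval_algebraMap_apply] at hY'
      have hC : ∀ a : k, Polynomial.aeval z (Polynomial.C a) = algebraMap k (Om k) a :=
        fun a => Polynomial.aeval_C z a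
      rw [map_add, map_sub, map_pow, map_add, map_mul, map_mul, map_mul, map_add, map_mul,
        map_mul, hC, hC, hC, hC, Polynomial.aeval_X, map_ofNat, map_ofNat]
      exact hY'.symm
  obtain ⟨r, hr⟩ := IsAlgClosed.exists_pow_nat_eq (Y / Y') (n := 3) (by norm_num)
  have hr' : r ^ 3 * Y' = Y := by rw [hr, div_mul_cancel₀ _ hY'0]
  have hr0 : r ≠ 0 := by
    rintro rfl
    apply hY0
    rw [← hr']
    norm_num
  obtain ⟨K, _, _, ι, τ, b, hK, hτ, hιτ, hb⟩ := exists_ff (k := k) ![Y, Y', r]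
  have b0 : ι (b 0) = Y := hb 0
  have b1 : ι (b 1) = Y' := hb 1
  have b2 : ι (b 2) = r := hb 2
  rw [← hz] at hιτ
  have hinj : Function.Injective ι := ι.toRingHom.injective
  refine ⟨K, inferInstance, inferInstance, τ, b 0, b 1, b 2, hK, hτ, ?_, ?_, ?_, ?_, ?_, ?_⟩
  · apply hinj
    rw [map_pow, b0, ← cub_map, AlgHom.commutes, hιτ]
    exact hY
  · apply hinj
    rw [map_pow, b1, ← cub_map, AlgHom.commutes]
    have e : ι (algebraMap k K (x' - c * x) + algebraMap k K c * τ) =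
        algebraMap k (Om k) (x' - c * x) + algebraMap k (Om k) c * z := by
      rw [map_add, map_mul, AlgHom.commutes, AlgHom.commutes, hιτ]
    rw [e]
    exact hY'
  · apply hinj
    rw [map_mul, map_pow, b0, b1, b2]
    exact hr'
  · intro h0
    apply hr0
    rw [← b2, h0, map_zero]
  · intro h0
    apply hY0
    rw [← b0, h0, map_zero]
  · intro h0
    apply hY'0
    rw [← b1, h0, map_zero]

lemma smt_ne {K : Type u} [Field K] [Algebra k K] {t s a b : k} {U : K}
    (ht : del D t ≠ 0) (hU : U ≠ 0) {v w : Place k K} (hv : IsRes v U a) (hw : IsRes w U b)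
    (hab : a ≠ b) : smt D (algebraMap k K t) (algebraMap k K s) U ≠ 0 := by
  intro h0
  have hal : ¬ Transcendental k U := by
    intro hUt
    apply aeval_ne_zero hUt (p := (Polynomial.C (2 * (Polynomial.aeval t D.be *
      Polynomial.aeval s D.be)) * Polynomial.X - Polynomial.C (del D t) -
      Polynomial.C (del D s) * Polynomial.X ^ 2) ^ 2 -
      Polynomial.C (4 * (Polynomial.aeval t D.al * Polynomial.aeval s D.al) ^ 3) *
        Polynomial.X ^ 2)
    · intro h1
      have h2 := congrArg (Polynomial.eval 0) h1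
      simp only [Polynomial.eval_sub, Polynomial.eval_mul,
        Polynomial.eval_pow, Polynomial.eval_X, Polynomial.eval_C, Polynomial.eval_zero] at h2
      apply pow_ne_zero 2 ht
      linear_combination h2
    · unfold smt at h0
      have e1 : del D (algebraMap k K t) = algebraMap k K (del D t) := by
        unfold del
        simp only [map_sub, map_pow, Polynomial.aeval_algebraMap_apply]
      have e2 : del D (algebraMap k K s) = algebraMap k K (del D s) := by
        unfold del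
        simp only [map_sub, map_pow, Polynomial.aeval_algebraMap_apply]
      rw [e1, e2] at h0
      simp only [Polynomial.aeval_algebraMap_apply] at h0
      simp only [map_sub, map_mul, map_pow, Polynomial.aeval_C, Polynomial.aeval_X, map_ofNat]
      field_simp at h0
      linear_combination h0
  obtain ⟨c, hc⟩ := exists_const_of_alg hal
  rw [← hc] at hv hw
  apply hab
  rw [← (isRes_const c).unique hv, ← (isRes_const c).unique hw]

/-- The function vanishes at all pairs of points. -/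
theorem pair_zero (h : Alt W ψ) {t s x y x' y' : k} (ht : del D t ≠ 0) (hs : del D s ≠ 0)
    (hy0 : y ≠ 0) (hy'0 : y' ≠ 0) (hy : y ^ 2 = cub D t x) (hy' : y' ^ 2 = cub D s x') :
    ψ (ptt D t x y, ptt D s x' y') = 0 := by
  classical
  obtain ⟨c, hc0, hc⟩ : ∃ c : k, c ≠ 0 ∧ c ^ 3 * y ^ 2 ≠ y' ^ 2 := by
    by_cases h1 : (1 : k) ^ 3 * y ^ 2 = y' ^ 2
    · refine ⟨-1, neg_ne_zero.mpr one_ne_zero, ?_⟩
      rw [← h1]
      intro h2
      apply pow_ne_zero 2 hy0
      have : (2 : k) * y ^ 2 = 0 := by linear_combination -h2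
      exact (mul_eq_zero.mp this).resolve_left Good.two
    · exact ⟨1, one_ne_zero, h1⟩
  obtain ⟨K, _, _, τ, Y, Y', r, hK, hτ, hY, hY', hr, hr0, hY0, hY'0⟩ :=
    move_field D (c := c) hy0 hy'0 hy hy'
  have hchar : Good K := Good.ext k
  obtain ⟨X', hX'⟩ : ∃ X' : K, X' = algebraMap k K (x' - c * x) + algebraMap k K c * τ := ⟨_, rfl⟩
  rw [← hX'] at hY'
  have hτ0 : τ ≠ 0 := by
    intro h0
    apply hτ
    rw [h0]
    exact isAlgebraic_zero
  -- a place at infinity
  have hτi : Transcendental k τ⁻¹ := by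
    intro h1
    apply hτ
    have := h1.inv
    rwa [inv_inv] at this
  obtain ⟨vi, hvi⟩ := exists_place hK hτi
  have hi : IsRes vi τ⁻¹ 0 := isRes_zero_iff.mpr hvi
  have hXi : IsRes vi (X' * τ⁻¹) c := by
    have e : X' * τ⁻¹ = algebraMap k K (x' - c * x) * τ⁻¹ + algebraMap k K c := by
      rw [hX']; field_simp
    rw [e]
    have := ((isRes_const (v := vi) (x' - c * x)).mul hi).add (isRes_const c)
    rwa [mul_zero, zero_add] at this
  have hT : ∀ v : Place k K, IsRes v (algebraMap k K t) t := fun v => isRes_const t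
  have hS : ∀ v : Place k K, IsRes v (algebraMap k K s) s := fun v => isRes_const s
  have hcubt : IsRes vi (cub D (algebraMap k K t) τ * τ⁻¹ ^ 3) 1 := by
    have e : cub D (algebraMap k K t) τ * τ⁻¹ ^ 3 = 1 -
        3 * Polynomial.aeval (algebraMap k K t) D.al * τ⁻¹ ^ 2 +
        2 * Polynomial.aeval (algebraMap k K t) D.be * τ⁻¹ ^ 3 := by
      unfold cub; field_simp
    rw [e]
    have := (isRes_one.sub ((isRes_three.mul (isRes_aeval' (hT vi) D.al)).mul (hi.pow 2))).add
      ((isRes_two.mul (isRes_aeval' (hT vi) D.be)).mul (hi.pow 3))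
    simpa using this
  have hcubs : IsRes vi (cub D (algebraMap k K s) X' * τ⁻¹ ^ 3) (c ^ 3) := by
    have e : cub D (algebraMap k K s) X' * τ⁻¹ ^ 3 = (X' * τ⁻¹) ^ 3 -
        3 * Polynomial.aeval (algebraMap k K s) D.al * (X' * τ⁻¹) * τ⁻¹ ^ 2 +
        2 * Polynomial.aeval (algebraMap k K s) D.be * τ⁻¹ ^ 3 := by
      unfold cub; field_simp
    rw [e]
    have := ((hXi.pow 3).sub (((isRes_three.mul (isRes_aeval' (hS vi) D.al)).mul hXi).mul
      (hi.pow 2))).add ((isRes_two.mul (isRes_aeval' (hS vi) D.be)).mul (hi.pow 3))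
    simpa using this
  have hc3 : c ^ 3 ≠ 0 := pow_ne_zero 3 hc0
  have hU : IsRes vi (r ^ 6) (1 / c ^ 3) := by
    have e : r ^ 6 = (cub D (algebraMap k K t) τ * τ⁻¹ ^ 3) /
        (cub D (algebraMap k K s) X' * τ⁻¹ ^ 3) := by
      rw [← hY, ← hY', ← hr]
      field_simp
    rw [e]
    exact res_div hK hcubt hcubs hc3
  obtain ⟨ρ, hρ, hρ6⟩ := exists_res_of_pow hK (by norm_num) hU
  have hρ0 : ρ ≠ 0 := by
    rintro rfl
    rw [zero_pow (by norm_num)] at hρ6
    exact (one_div_ne_zero hc3) hρ6.symm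
  have hj3 : (ρ ^ 2 * c) ^ 3 = 1 := by
    have : (ρ ^ 2 * c) ^ 3 = ρ ^ 6 * c ^ 3 := by ring
    rw [this, hρ6, one_div, inv_mul_cancel₀ hc3]
  obtain ⟨j, hj⟩ : ∃ j, j = ρ ^ 2 * c := ⟨_, rfl⟩
  rw [← hj] at hj3
  have hj0 : j ≠ 0 := by rw [hj]; exact mul_ne_zero (pow_ne_zero 2 hρ0) hc0
  obtain ⟨r₁, hr₁⟩ : ∃ r₁ : K, r₁ = algebraMap k K j * r := ⟨_, rfl⟩
  have hr₁0 : r₁ ≠ 0 := by rw [hr₁]; exact mul_ne_zero ((_root_.map_ne_zero _).mpr hj0) hr0
  have hr₁3 : r₁ ^ 3 * Y' = Y := by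
    rw [hr₁, mul_pow, ← map_pow, hj3, map_one, one_mul, hr]
  have hr₁6 : r₁ ^ 6 = Y ^ 2 / Y' ^ 2 := by
    rw [← hr₁3]; field_simp
  have hr₁i : IsRes vi r₁ (j * ρ) := by
    rw [hr₁]
    exact (isRes_const j).mul hρ
  have hjρ : (j * ρ) ^ 2 * c = 1 := by
    have : (j * ρ) ^ 2 * c = j ^ 2 * (ρ ^ 2 * c) := by ring
    rw [this, ← hj, ← pow_succ, hj3]
  have hjρ0 : j * ρ ≠ 0 := mul_ne_zero hj0 hρ0
  obtain ⟨X₂, hX₂⟩ : ∃ X₂ : K, X₂ = r₁ ^ 2 * X' := ⟨_, rfl⟩
  obtain ⟨ξ, hξ⟩ : ∃ ξ : K, ξ = xi D (algebraMap k K t) (algebraMap k K s) r₁ τ X₂ := ⟨_, rfl⟩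
  have hX₂i : IsRes vi (X₂ * τ⁻¹) 1 := by
    have := (hr₁i.pow 2).mul hXi
    rw [hjρ] at this
    convert this using 1
    rw [hX₂]; ring
  have hξi : IsRes vi (ξ * τ⁻¹ ^ 2) (3 * c) := by
    have e1 := xi_mul D (T := algebraMap k K t) (S := algebraMap k K s) (x₁ := τ) (x₂ := X₂) hr₁0
    rw [← hξ] at e1
    have e2 : r₁ ^ 2 * ξ * τ⁻¹ ^ 2 = 1 + (X₂ * τ⁻¹) + (X₂ * τ⁻¹) ^ 2 -
        Polynomial.aeval (algebraMap k K t) D.al * τ⁻¹ ^ 2 -
        r₁ ^ 4 * Polynomial.aeval (algebraMap k K s) D.al * τ⁻¹ ^ 2 := by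
      rw [e1]; field_simp
    have e3 : IsRes vi (r₁ ^ 2 * ξ * τ⁻¹ ^ 2) 3 := by
      rw [e2]
      have := ((((isRes_one (v := vi)).add hX₂i).add (hX₂i.pow 2)).sub
        ((isRes_aeval' (hT vi) D.al).mul (hi.pow 2))).sub
        (((hr₁i.pow 4).mul (isRes_aeval' (hS vi) D.al)).mul (hi.pow 2))
      convert this using 1
      norm_num
    have e4 := res_div hK e3 (hr₁i.pow 2) (pow_ne_zero 2 hjρ0)
    convert e4 using 1
    · field_simp
    · rw [eq_div_iff (pow_ne_zero 2 hjρ0)]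
      linear_combination 3 * hjρ
  have hUi : IsRes vi (r₁ ^ 6) (1 / c ^ 3) := by
    have := hr₁i.pow 6
    convert this using 1
    rw [div_eq_iff hc3]
    have : (j * ρ) ^ 6 * c ^ 3 = ((j * ρ) ^ 2 * c) ^ 3 := by ring
    rw [this, hjρ, one_pow]
  have hnn : ∀ (V : K) (b : k), b ≠ 0 → IsRes vi V b →
      nn D (algebraMap k K t) (algebraMap k K s) V ξ ≠ 0 := by
    intro V b hb hV h0
    have e : nn D (algebraMap k K t) (algebraMap k K s) V ξ * τ⁻¹ ^ 6 =
        V * ((ξ * τ⁻¹ ^ 2) ^ 3 - 3 * (Polynomial.aeval (algebraMap k K t) D.al *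
          Polynomial.aeval (algebraMap k K s) D.al) * (ξ * τ⁻¹ ^ 2) * τ⁻¹ ^ 4) +
        (Polynomial.aeval (algebraMap k K t) D.al ^ 3 +
          V ^ 2 * Polynomial.aeval (algebraMap k K s) D.al ^ 3) * τ⁻¹ ^ 6 := by
      unfold nn; ring
    have e2 : IsRes vi (nn D (algebraMap k K t) (algebraMap k K s) V ξ * τ⁻¹ ^ 6)
        (b * (3 * c) ^ 3) := by
      rw [e]
      have := (hV.mul ((hξi.pow 3).sub (((isRes_three.mul ((isRes_aeval' (hT vi) D.al).mul
        (isRes_aeval' (hS vi) D.al))).mul hξi).mul (hi.pow 4)))).add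
        ((((isRes_aeval' (hT vi) D.al).pow 3).add ((hV.pow 2).mul
          ((isRes_aeval' (hS vi) D.al).pow 3))).mul (hi.pow 6))
      convert this using 1
      simp
    rw [h0, zero_mul] at e2
    have e3 := e2.unique isRes_zero
    exact mul_ne_zero hb (pow_ne_zero 3 (mul_ne_zero three_ne_zero hc0)) e3
  obtain ⟨N₁, hN₁⟩ : ∃ N : K, N = nn D (algebraMap k K t) (algebraMap k K s) (r₁ ^ 6) ξ := ⟨_, rfl⟩
  obtain ⟨N₂, hN₂⟩ : ∃ N : K, N = nn D (algebraMap k K t) (algebraMap k K s)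
    (del D (algebraMap k K t) / (del D (algebraMap k K s) * r₁ ^ 6)) ξ := ⟨_, rfl⟩
  obtain ⟨N₃, hN₃⟩ : ∃ N : K, N = smt D (algebraMap k K t) (algebraMap k K s) (r₁ ^ 6) := ⟨_, rfl⟩
  have hN₁0 : N₁ ≠ 0 := by
    rw [hN₁]
    exact hnn _ _ (one_div_ne_zero hc3) hUi
  have hsc : del D s * (1 / c ^ 3) ≠ 0 := mul_ne_zero hs (one_div_ne_zero hc3)
  have hN₂0 : N₂ ≠ 0 := by
    rw [hN₂]
    exact hnn _ _ (div_ne_zero ht hsc)
      (res_div hK (isRes_del D (hT vi)) ((isRes_del D (hS vi)).mul hUi) hsc)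
  -- the place of the given pair
  have hτx : Transcendental k (τ - algebraMap k K x) := by
    intro h6
    apply hτ
    have := h6.add (isAlgebraic_algebraMap (A := K) x)
    rwa [sub_add_cancel] at this
  obtain ⟨v₀, hv₀⟩ := exists_place hK hτx
  have hv₀τ : IsRes v₀ τ x := hv₀
  have hXres : ∀ (v : Place k K) (a : k), IsRes v τ a → IsRes v X' (x' - c * x + c * a) := by
    intro v a ha
    rw [hX']
    exact (isRes_const _).add ((isRes_const c).mul ha)
  have hv₀X : IsRes v₀ X' x' := by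
    have := hXres v₀ x hv₀τ
    convert this using 1
    ring
  have hv₀Y : IsRes v₀ (Y ^ 2) (y ^ 2) := by
    rw [hY, hy]
    exact isRes_cub D (hT v₀) hv₀τ
  have hv₀Y' : IsRes v₀ (Y' ^ 2) (y' ^ 2) := by
    rw [hY', hy']
    exact isRes_cub D (hS v₀) hv₀X
  have hN₃0 : N₃ ≠ 0 := by
    rw [hN₃]
    refine smt_ne D ht (pow_ne_zero 6 hr₁0) hUi (w := v₀) (b := y ^ 2 / y' ^ 2) ?_ ?_
    · rw [hr₁6]
      exact res_div hK hv₀Y hv₀Y' (pow_ne_zero 2 hy'0)
    · intro h0
      apply hc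
      rw [div_eq_div_iff hc3 (pow_ne_zero 2 hy'0)] at h0
      linear_combination -h0
  -- the curve
  let c₀ : (W.surface.prod W.surface).Mor K :=
    (ptt D (algebraMap k K t) τ Y, ptt D (algebraMap k K s) X' Y')
  have hev : ∀ (v : Place k K) (a b b' : k), IsRes v τ a → IsRes v Y b → IsRes v Y' b' →
      (W.surface.prod W.surface).eval hK c₀ v =
        (ptt D t a b, ptt D s (x' - c * x + c * a) b') := by
    intro v a b b' h1 h2 h3
    exact Prod.ext (eval_ptt D hK v hY (hT v) h1 h2) (eval_ptt D hK v hY' (hS v) (hXres v a h1) h3)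
  have happ : ψ ((W.surface.prod W.surface).eval hK c₀ v₀) = 0 := by
    refine app h.kills hK c₀ (T := {v | ord v.ring N₁ ≠ 0} ∪ {v | ord v.ring N₂ ≠ 0} ∪
      {v | ord v.ring N₃ ≠ 0} ∪ {v | ord v.ring τ ≠ 0} ∪ {v | ord v.ring Y ≠ 0} ∪
      {v | ord v.ring Y' ≠ 0}) ?_ ?_ v₀
    · exact (((((finite_support_ord hK hN₁0).union (finite_support_ord hK hN₂0)).union
        (finite_support_ord hK hN₃0)).union (finite_support_ord hK hτ0)).union
        (finite_support_ord hK hY0)).union (finite_support_ord hK hY'0)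
    · intro v hv
      simp only [Set.mem_union, not_or, Set.mem_ofPred_eq, not_not] at hv
      obtain ⟨⟨⟨⟨⟨o1, o2⟩, o3⟩, o4⟩, o5⟩, o6⟩ := hv
      obtain ⟨n₁, hn₁0, hn₁⟩ := exists_res_of_ord hK hN₁0 o1
      obtain ⟨n₂, hn₂0, hn₂⟩ := exists_res_of_ord hK hN₂0 o2
      obtain ⟨n₃, hn₃0, hn₃⟩ := exists_res_of_ord hK hN₃0 o3
      obtain ⟨a, -, ha⟩ := exists_res_of_ord hK hτ0 o4
      obtain ⟨b, hb0, hb⟩ := exists_res_of_ord hK hY0 o5
      obtain ⟨b', hb'0, hb'⟩ := exists_res_of_ord hK hY'0 o6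
      have hU6 : IsRes v (r₁ ^ 6) (b ^ 2 / b' ^ 2) := by
        rw [hr₁6]
        exact res_div hK (hb.pow 2) (hb'.pow 2) (pow_ne_zero 2 hb'0)
      obtain ⟨q, hq, hq6⟩ := exists_res_of_pow hK (by norm_num) hU6
      have hq0 : q ≠ 0 := by
        rintro rfl
        rw [zero_pow (by norm_num)] at hq6
        exact div_ne_zero (pow_ne_zero 2 hb0) (pow_ne_zero 2 hb'0) hq6.symm
      have hq3 : q ^ 3 * b' = b := by
        have := (hq.pow 3).mul hb'
        rw [hr₁3] at this
        exact (hb.unique this).symm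
      have hX'v := hXres v a ha
      obtain ⟨a', ha'⟩ : ∃ a', a' = x' - c * x + c * a := ⟨_, rfl⟩
      rw [← ha'] at hX'v
      have hX₂v : IsRes v X₂ (q ^ 2 * a') := by
        rw [hX₂]
        exact (hq.pow 2).mul hX'v
      have hξv : IsRes v ξ (xi D t s q a (q ^ 2 * a')) := by
        rw [hξ]
        exact isRes_xi D hK (hT v) (hS v) hq hq0 ha hX₂v
      have hdq : del D s * q ^ 6 ≠ 0 := mul_ne_zero hs (pow_ne_zero 6 hq0)
      have g1 : nn D t s (q ^ 6) (xi D t s q a (q ^ 2 * a')) ≠ 0 := by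
        have := isRes_nn D (hT v) (hS v) (hq.pow 6) hξv
        rw [← hN₁] at this
        rw [← hn₁.unique this]
        exact hn₁0
      have g2 : nn D t s (del D t / (del D s * q ^ 6)) (xi D t s q a (q ^ 2 * a')) ≠ 0 := by
        have := isRes_nn D (hT v) (hS v) (res_div hK (isRes_del D (hT v))
          ((isRes_del D (hS v)).mul (hq.pow 6)) hdq) hξv
        rw [← hN₂] at this
        rw [← hn₂.unique this]
        exact hn₂0
      have g3 : Smooth D t s (q ^ 6) := by
        have := isRes_smt D hK (hT v) (hS v) (hq.pow 6) (pow_ne_zero 6 hq0)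
        rw [← hN₃] at this
        have h7 := hn₃.unique this
        rw [h7] at hn₃0
        unfold smt at hn₃0
        exact fun h8 => hn₃0 (sub_eq_zero.mpr h8)
      have g4 : b ^ 2 = cub D t a := by
        have := hb.pow 2
        rw [hY] at this
        exact this.unique (isRes_cub D (hT v) ha)
      have g5 : b' ^ 2 = cub D s a' := by
        have := hb'.pow 2
        rw [hY'] at this
        exact this.unique (isRes_cub D (hS v) hX'v)
      have g6 : q ^ 2 * a' / q ^ 2 = a' := by field_simp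
      have g7 : cub D t a = q ^ 6 * cub D s (q ^ 2 * a' / q ^ 2) := by
        rw [g6, ← g4, ← g5, ← hq3]; ring
      have g8 := good_zero D h ht hs hq0 g4 g7 g1 g2 g3
      have g9 : b / q ^ 3 = b' := by
        rw [← hq3]; field_simp
      rw [g6, g9] at g8
      rw [hev v a b b' ha hb hb', ← ha']
      exact g8
  -- the values at the given place
  obtain ⟨e, he, he2⟩ := exists_res_of_pow hK two_ne_zero hv₀Y
  obtain ⟨e', he', he'2⟩ := exists_res_of_pow hK two_ne_zero hv₀Y'
  rw [hev v₀ x e e' hv₀τ he he'] at happ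
  have e6 : x' - c * x + c * x = x' := by ring
  rw [e6] at happ
  have hsq : ∀ {a b : k}, a ^ 2 = b ^ 2 → a = b ∨ a = -b := fun hab =>
    sq_eq_sq_iff_eq_or_eq_neg.mp hab
  rcases hsq he2 with rfl | rfl <;> rcases hsq he'2 with rfl | rfl
  · exact happ
  · rw [← neg_ptt D hy', h.odd'] at happ
    exact neg_eq_zero.mp happ
  · rw [← neg_ptt D hy, h.odd] at happ
    exact neg_eq_zero.mp happ
  · rw [← neg_ptt D hy, ← neg_ptt D hy', h.odd, h.odd', neg_neg] at happ
    exact happ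

include D in
/-- An odd alternating function vanishes. -/
theorem alt_zero (h : Alt W ψ) (p q : W.surface.Pt) : ψ (p, q) = 0 := by
  rcases null_or D h p with h1 | ⟨t, x, y, ht, hy0, hy, rfl⟩
  · exact (h1 q).1
  rcases null_or D h q with h2 | ⟨s, x', y', hs, hy'0, hy', rfl⟩
  · exact (h2 _).2
  exact pair_zero D h ht hs hy0 hy'0 hy hy'

end Pool.Agent.Helper83.KV

end CX
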